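import Mathlib
import Pool.Agent.W27.BG.Sets

set_option autoImplicit false

namespace Pool.Agent.Results.MP_cb27ba_nt.SmallDoublingQuarter

open scoped Pointwise

/-- Power saving above the exponent `1/4` for sets of bounded doubling, and for all sets that are
nearly invariant under such a set, for EVERY prime and EVERY nonprincipal character.
For all `δ > 1/4` and `K` there are `τ > 0` and `P` such that for every prime `p ≥ P`, every
nonprincipal `χ` modulo `p`, every set `B` with `|B| > p^δ` and `|B+B| ≤ K |B|`, and every set `A`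
with `|A+B| ≤ p^τ |A|` (for instance `A = B`, or a union of any number of disjoint translates
of `B`):
* the bilinear form `∑ f(a) g(b) χ(a-b)` over `A × A` is at most `|A|^(1-τ) ‖f‖₂ ‖g‖₂`;
* `|∑_{a,b ∈ A'} χ(a-b)| < |A'|^(2-τ)` for every subset `A'` of `A` with `|A| ≤ p^τ |A'|`
  (in particular for `A' = A`). -/
theorem result :
    ∀ δ K : ℝ, 1 / 4 < δ →
      ∃ τ : ℝ, 0 < τ ∧ ∃ P : ℕ, ∀ p : ℕ, p.Prime → P ≤ p →
        ∀ χ : DirichletCharacter ℂ p, χ ≠ 1 → ∀ A B : Finset (ZMod p), A.Nonempty →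
          (p : ℝ) ^ δ < B.card → ((B + B).card : ℝ) ≤ K * B.card →
          ((A + B).card : ℝ) ≤ (p : ℝ) ^ τ * A.card →
          (∀ f g : ZMod p → ℂ, ‖∑ a ∈ A, ∑ b ∈ A, f a * g b * χ (a - b)‖
            ≤ (A.card : ℝ) ^ (1 - τ) *
              (Real.sqrt (∑ a ∈ A, ‖f a‖ ^ 2) * Real.sqrt (∑ b ∈ A, ‖g b‖ ^ 2))) ∧
          (∀ A' : Finset (ZMod p), A' ⊆ A → (A.card : ℝ) ≤ (p : ℝ) ^ τ * A'.card →
            ‖∑ a ∈ A', ∑ b ∈ A', χ (a - b)‖ < (A'.card : ℝ) ^ (2 - τ)) :=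
  fun δ K hδ => Pool.Agent.W27.BG.quarter δ K hδ

end Pool.Agent.Results.MP_cb27ba_nt.SmallDoublingQuarter
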