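import Mathlib
import Pool.Agent.W27.BG.Sets

set_option autoImplicit false

namespace Pool.Agent.Results.MP_cb27ba_nt.SmallDoublingUniform

open scoped Pointwise

/-- Exponents up to `1/4`: for every prime modulus, power saving for all sets of bounded doubling,
for all sets that are nearly invariant under such a set and for all their dense subsets,
simultaneously, for all characters but few.  For all `0 < δ ≤ 1/4`, `ε > 0` and `K` there is
`τ > 0` such that for every large prime `p` all but at most `p^(1-2δ+ε)` of the characters `χ`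
modulo `p` satisfy: `|∑_{a,b ∈ A'} χ(a-b)| < |A'|^(2-τ)` whenever `A' ⊆ A`, `|A| ≤ p^τ |A'|`,
`|A+B| ≤ p^τ |A|`, `|B| > p^δ` and `|B+B| ≤ K |B|` (for instance `A' = A = B`). -/
theorem result :
    ∀ δ ε K : ℝ, 0 < δ → δ ≤ 1 / 4 → 0 < ε →
      ∃ τ : ℝ, 0 < τ ∧ ∃ P : ℕ, ∀ p : ℕ, p.Prime → P ≤ p →
        ({χ : DirichletCharacter ℂ p | χ ≠ 1 ∧ ∃ A B : Finset (ZMod p), A.Nonempty ∧
          (p : ℝ) ^ δ < (B.card : ℝ) ∧ ((B + B).card : ℝ) ≤ K * B.card ∧
          ((A + B).card : ℝ) ≤ (p : ℝ) ^ τ * A.card ∧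
          ∃ A' : Finset (ZMod p), A' ⊆ A ∧ (A.card : ℝ) ≤ (p : ℝ) ^ τ * A'.card ∧
            (A'.card : ℝ) ^ (2 - τ) ≤ ‖∑ a ∈ A', ∑ b ∈ A', χ (a - b)‖}.ncard : ℝ)
          ≤ (p : ℝ) ^ (1 - 2 * δ + ε) :=
  fun δ ε K hδ hδ4 hε => Pool.Agent.W27.BG.uniform δ ε K hδ hδ4 hε

end Pool.Agent.Results.MP_cb27ba_nt.SmallDoublingUniform
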